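import Pool.Agent.H394.LieStm

/-!
# Polarisation of identities in the free Lie algebra (S_POL)
-/

set_option autoImplicit false

namespace Pool.Agent.H177.LIE

open Finset Pool.Agent.Helper884.LieId Pool.Agent.H394.LieB

variable {K : Type} [Field K]

/-! ### (a) homogeneous components -/

theorem LieMono.pos {e : ℕ} {x : FreeLieAlgebra K ℕ} (h : LieMono K e x) : 1 ≤ e := by
  induction h with
  | of i => exact le_rfl
  | lie _ _ h1 h2 => omega

theorem homog_zero {x : FreeLieAlgebra K ℕ} (h : x ∈ Homog K 0) : x = 0 := by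
  unfold Homog at h
  have : {x : FreeLieAlgebra K ℕ | LieMono K 0 x} = ∅ := by
    ext z
    simp only [Set.mem_ofPred_eq, Set.mem_empty_iff_false, iff_false]
    intro hz
    have := LieMono.pos hz
    omega
  rw [this, Submodule.span_empty] at h
  exact (Submodule.mem_bot K).mp h

theorem degLE_components {d : ℕ} {f : FreeLieAlgebra K ℕ} (hf : f ∈ DegLE K d) :
    ∃ g : ℕ → FreeLieAlgebra K ℕ, (∀ e, g e ∈ Homog K e) ∧ f = ∑ e ∈ range (d + 1), g e := by
  unfold DegLE at hf
  induction hf using Submodule.span_induction with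
  | mem x hx =>
    obtain ⟨e, he, hx⟩ := hx
    refine ⟨Pi.single e x, fun e' => ?_, ?_⟩
    · by_cases h : e' = e
      · subst h
        rw [Pi.single_eq_same]
        exact Submodule.subset_span hx
      · rw [Pi.single_eq_of_ne h]
        exact Submodule.zero_mem _
    · rw [Finset.sum_eq_single e]
      · rw [Pi.single_eq_same]
      · intro b _ hb
        rw [Pi.single_eq_of_ne hb]
      · intro h
        exact absurd (Finset.mem_range.mpr (by omega)) h
  | zero => exact ⟨0, fun e => Submodule.zero_mem _, by simp⟩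
  | add x y _ _ hx hy =>
    obtain ⟨g, hg, rfl⟩ := hx
    obtain ⟨g', hg', rfl⟩ := hy
    refine ⟨g + g', fun e => Submodule.add_mem _ (hg e) (hg' e), ?_⟩
    rw [← Finset.sum_add_distrib]
    rfl
  | smul a x _ hx =>
    obtain ⟨g, hg, rfl⟩ := hx
    refine ⟨a • g, fun e => Submodule.smul_mem _ a (hg e), ?_⟩
    rw [Finset.smul_sum]
    rfl

variable {L : Type} [LieRing L] [LieAlgebra K L]

theorem lift_smul_mono (t : K) (a : ℕ → L) {e : ℕ} {x : FreeLieAlgebra K ℕ}
    (h : LieMono K e x) :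
    FreeLieAlgebra.lift K (t • a) x = t ^ e • FreeLieAlgebra.lift K a x := by
  induction h with
  | of i =>
    rw [FreeLieAlgebra.lift_of_apply, FreeLieAlgebra.lift_of_apply, pow_one]
    rfl
  | @lie d e x y _ _ h1 h2 =>
    rw [LieHom.map_lie, LieHom.map_lie, h1, h2, smul_lie, lie_smul, smul_smul, pow_add]

theorem lift_smul_homog (t : K) (a : ℕ → L) {e : ℕ} {x : FreeLieAlgebra K ℕ}
    (h : x ∈ Homog K e) :
    FreeLieAlgebra.lift K (t • a) x = t ^ e • FreeLieAlgebra.lift K a x := by
  unfold Homog at h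
  induction h using Submodule.span_induction with
  | mem x hx => exact lift_smul_mono t a hx
  | zero => rw [map_zero, map_zero, smul_zero]
  | add x y _ _ hx hy => rw [map_add, map_add, hx, hy, smul_add]
  | smul c x _ hx =>
    rw [map_smul (FreeLieAlgebra.lift K (t • a)) c x, map_smul (FreeLieAlgebra.lift K a) c x, hx,
      smul_comm]

theorem coeff_zero [CharZero K] {M : Type} [AddCommGroup M] [Module K M] (d : ℕ) (v : ℕ → M)
    (h : ∀ t : K, ∑ e ∈ range (d + 1), t ^ e • v e = 0) : ∀ e ≤ d, v e = 0 := by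
  intro e he
  rw [← Module.forall_dual_apply_eq_zero_iff K]
  intro l
  let P : Polynomial K := ∑ e ∈ range (d + 1), Polynomial.C (l (v e)) * Polynomial.X ^ e
  have hP : P = 0 := by
    apply Polynomial.funext
    intro t
    rw [Polynomial.eval_zero, Polynomial.eval_finsetSum]
    have h1 := congrArg l (h t)
    rw [map_sum, map_zero] at h1
    rw [← h1]
    refine Finset.sum_congr rfl fun i _ => ?_
    rw [Polynomial.eval_mul, Polynomial.eval_C, Polynomial.eval_pow, Polynomial.eval_X, map_smul,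
      smul_eq_mul, mul_comm]
  have h2 : P.coeff e = l (v e) := by
    change (∑ e ∈ range (d + 1), Polynomial.C (l (v e)) * Polynomial.X ^ e).coeff e = _
    rw [Polynomial.finsetSum_coeff, Finset.sum_eq_single e]
    · rw [Polynomial.coeff_C_mul_X_pow, if_pos rfl]
    · intro b _ hb
      rw [Polynomial.coeff_C_mul_X_pow, if_neg (fun h => hb h.symm)]
    · intro hn
      exact absurd (Finset.mem_range.mpr (by omega)) hn
  rw [← h2, hP, Polynomial.coeff_zero]

/-! ### (b) left normed brackets -/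

variable (K L) in
/-- the bracket as a bilinear map -/
def brl : L →ₗ[K] (L →ₗ[K] L) :=
  LinearMap.mk₂ K (fun x y => ⁅x, y⁆) add_lie smul_lie lie_add (fun c x y => lie_smul c x y)

variable (K L) in
/-- the left normed bracket -/
noncomputable def TM : (k : ℕ) → MultilinearMap K (fun _ : Fin (k + 1) => L) L
  | 0 => MultilinearMap.ofSubsingleton K L L (0 : Fin 1) LinearMap.id
  | k + 1 => MultilinearMap.uncurryRight ((brl K L).compMultilinearMap (TM k))

theorem TM_zero (v : Fin 1 → L) : TM K L 0 v = v 0 := rfl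

theorem TM_succ (k : ℕ) (v : Fin (k + 2) → L) :
    TM K L (k + 1) v = ⁅TM K L k (Fin.init v), v (Fin.last (k + 1))⁆ := rfl

variable {L' : Type} [LieRing L'] [LieAlgebra K L']

theorem map_TM (φ : L →ₗ⁅K⁆ L') : ∀ (k : ℕ) (v : Fin (k + 1) → L),
    φ (TM K L k v) = TM K L' k (fun i => φ (v i)) := by
  intro k
  induction k with
  | zero => intro v; rfl
  | succ k ih =>
    intro v
    rw [TM_succ, TM_succ, LieHom.map_lie, ih]
    rfl

variable (K) in
/-- the span of the left normed brackets -/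
noncomputable def H (k : ℕ) : Submodule K (FreeLieAlgebra K ℕ) :=
  Submodule.span K (Set.range fun w : Fin (k + 1) → ℕ =>
    TM K (FreeLieAlgebra K ℕ) k (fun i => FreeLieAlgebra.of K (w i)))

theorem H_lie_of {k : ℕ} {A : FreeLieAlgebra K ℕ} (hA : A ∈ H K k) (j : ℕ) :
    ⁅A, FreeLieAlgebra.of K j⁆ ∈ H K (k + 1) := by
  unfold H at hA
  induction hA using Submodule.span_induction with
  | mem x hx =>
    obtain ⟨w, rfl⟩ := hx
    refine Submodule.subset_span ⟨Fin.snoc w j, ?_⟩
    simp only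
    rw [TM_succ]
    congr 1
    · congr 1
      funext i
      simp [Fin.init]
    · simp
  | zero => rw [zero_lie]; exact Submodule.zero_mem _
  | add x y _ _ hx hy => rw [add_lie]; exact Submodule.add_mem _ hx hy
  | smul c x _ hx => rw [smul_lie]; exact Submodule.smul_mem _ c hx

theorem H_zero_span {B : FreeLieAlgebra K ℕ} (hB : B ∈ H K 0) :
    B ∈ Submodule.span K (Set.range fun j : ℕ => FreeLieAlgebra.of K j) := by
  unfold H at hB
  refine Submodule.span_mono ?_ hB
  rintro _ ⟨w, rfl⟩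
  exact ⟨w 0, rfl⟩

theorem H_succ_span {k : ℕ} {B : FreeLieAlgebra K ℕ} (hB : B ∈ H K (k + 1)) :
    B ∈ Submodule.span K {z | ∃ B' ∈ H K k, ∃ j : ℕ, z = ⁅B', FreeLieAlgebra.of K j⁆} := by
  unfold H at hB
  refine Submodule.span_mono ?_ hB
  rintro _ ⟨w, rfl⟩
  refine ⟨TM K (FreeLieAlgebra K ℕ) k (fun i => FreeLieAlgebra.of K (w i.castSucc)),
    Submodule.subset_span ⟨fun i => w i.castSucc, rfl⟩, w (Fin.last (k + 1)), ?_⟩
  simp only
  rw [TM_succ]
  rfl

omit [LieAlgebra K L] in
theorem jac (x y z : L) : ⁅x, ⁅y, z⁆⁆ = ⁅⁅x, y⁆, z⁆ - ⁅⁅x, z⁆, y⁆ := by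
  rw [leibniz_lie x y z, ← lie_skew ⁅x, z⁆ y]
  abel

theorem H_lie : ∀ (k' d' : ℕ) (A B : FreeLieAlgebra K ℕ), A ∈ H K d' → B ∈ H K k' →
    ⁅A, B⁆ ∈ H K (d' + k' + 1) := by
  intro k'
  induction k' with
  | zero =>
    intro d' A B hA hB
    have hB' := H_zero_span hB
    induction hB' using Submodule.span_induction with
    | mem x hx =>
      obtain ⟨j, rfl⟩ := hx
      exact H_lie_of hA j
    | zero => rw [lie_zero]; exact Submodule.zero_mem _
    | add x y hx' hy' hx hy =>
      rw [lie_add]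
      have e1 : x ∈ H K 0 := by
        unfold H
        refine Submodule.span_mono ?_ hx'
        rintro _ ⟨j, rfl⟩
        exact ⟨fun _ => j, rfl⟩
      have e2 : y ∈ H K 0 := by
        unfold H
        refine Submodule.span_mono ?_ hy'
        rintro _ ⟨j, rfl⟩
        exact ⟨fun _ => j, rfl⟩
      exact Submodule.add_mem _ (hx e1) (hy e2)
    | smul c x hx' hx =>
      rw [lie_smul]
      have e1 : x ∈ H K 0 := by
        unfold H
        refine Submodule.span_mono ?_ hx'
        rintro _ ⟨j, rfl⟩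
        exact ⟨fun _ => j, rfl⟩
      exact Submodule.smul_mem _ c (hx e1)
  | succ k ih =>
    intro d' A B hA hB
    have hB' := H_succ_span hB
    clear hB
    induction hB' using Submodule.span_induction with
    | mem x hx =>
      obtain ⟨B', hB', j, rfl⟩ := hx
      have h1 := H_lie_of (ih d' A B' hA hB') j
      have h2 := ih (d' + 1) ⁅A, FreeLieAlgebra.of K j⁆ B' (H_lie_of hA j) hB'
      have e1 : d' + 1 + k + 1 = d' + (k + 1) + 1 := by omega
      have e2 : d' + k + 1 + 1 = d' + (k + 1) + 1 := by omega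
      rw [e1] at h2
      rw [e2] at h1
      rw [jac A B' (FreeLieAlgebra.of K j)]
      exact Submodule.sub_mem _ h1 h2
    | zero => rw [lie_zero]; exact Submodule.zero_mem _
    | add x y _ _ hx hy => rw [lie_add]; exact Submodule.add_mem _ hx hy
    | smul c x _ hx => rw [lie_smul]; exact Submodule.smul_mem _ c hx

theorem mono_mem_H {e : ℕ} {z : FreeLieAlgebra K ℕ} (h : LieMono K e z) : z ∈ H K (e - 1) := by
  induction h with
  | of i => exact Submodule.subset_span ⟨fun _ => i, rfl⟩
  | @lie d e x y hx hy h1 h2 =>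
    have p1 := LieMono.pos hx
    have p2 := LieMono.pos hy
    have := H_lie (e - 1) (d - 1) x y h1 h2
    have he : d - 1 + (e - 1) + 1 = d + e - 1 := by omega
    rwa [he] at this

theorem homog_le_H {k : ℕ} {z : FreeLieAlgebra K ℕ} (h : z ∈ Homog K (k + 1)) : z ∈ H K k := by
  unfold Homog at h
  induction h using Submodule.span_induction with
  | mem x hx =>
    have h1 := mono_mem_H hx
    rwa [Nat.add_sub_cancel] at h1
  | zero => exact Submodule.zero_mem _
  | add x y _ _ hx hy => exact Submodule.add_mem _ hx hy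
  | smul c x _ hx => exact Submodule.smul_mem _ c hx

/-! ### (c) the multilinear components -/

variable (K) in
/-- the generators -/
noncomputable def F {k : ℕ} (w : Fin (k + 1) → ℕ) : FreeLieAlgebra K ℕ :=
  TM K (FreeLieAlgebra K ℕ) k (fun i => FreeLieAlgebra.of K (w i))

theorem exists_coeff {k : ℕ} {f : FreeLieAlgebra K ℕ} (hf : f ∈ H K k) :
    ∃ c : (Fin (k + 1) → ℕ) →₀ K, ∑ w ∈ c.support, c w • F K w = f := by
  unfold H at hf
  obtain ⟨c, hc⟩ := (Finsupp.mem_span_range_iff_exists_finsupp).mp hf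
  exact ⟨c, hc⟩

theorem F_lnr : ∀ (k : ℕ) (v : Fin (k + 1) → ℕ), Function.Injective v →
    ∃ (i : ℕ) (w : List ℕ), (i :: w).Nodup ∧ (i :: w).toFinset = Finset.univ.image v ∧
      F K v = lnr (FreeLieAlgebra.of K) (FreeLieAlgebra.of K i) w := by
  intro k
  induction k with
  | zero =>
    intro v _
    refine ⟨v 0, [], List.nodup_singleton _, ?_, rfl⟩
    ext x
    simp
  | succ k ih =>
    intro v hv
    obtain ⟨i, w, h1, h2, h3⟩ := ih (fun l => v l.castSucc)
      (fun a b hab => Fin.castSucc_injective _ (hv hab))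
    have hnot : v (Fin.last (k + 1)) ∉ (i :: w).toFinset := by
      rw [h2, Finset.mem_image]
      rintro ⟨l, _, hl⟩
      have := hv hl
      exact (Fin.castSucc_lt_last l).ne this
    rw [List.mem_toFinset, List.mem_cons, not_or] at hnot
    rw [List.nodup_cons] at h1
    refine ⟨i, v (Fin.last (k + 1)) :: w, ?_, ?_, ?_⟩
    · rw [List.nodup_cons, List.nodup_cons, List.mem_cons, not_or]
      exact ⟨⟨fun h => hnot.1 h.symm, h1.1⟩, hnot.2, h1.2⟩
    · rw [List.toFinset_cons, List.toFinset_cons, Finset.insert_comm, ← List.toFinset_cons, h2]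
      ext x
      simp only [Finset.mem_insert, Finset.mem_image, Finset.mem_univ, true_and]
      constructor
      · rintro (rfl | ⟨l, rfl⟩)
        · exact ⟨_, rfl⟩
        · exact ⟨_, rfl⟩
      · rintro ⟨l, rfl⟩
        induction l using Fin.lastCases with
        | last => exact Or.inl rfl
        | cast l => exact Or.inr ⟨l, rfl⟩
    · unfold F at h3 ⊢
      rw [TM_succ]
      change ⁅TM K (FreeLieAlgebra K ℕ) k (fun l => FreeLieAlgebra.of K (v l.castSucc)), _⁆ = _
      rw [h3]
      rfl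

theorem F_perm_mem {k : ℕ} (s : Equiv.Perm (Fin (k + 1))) :
    F K (fun i => ((s i : Fin (k + 1)) : ℕ)) ∈ ML K (Finset.range (k + 1)) := by
  obtain ⟨i, w, h1, h2, h3⟩ := F_lnr (K := K) k (fun i => ((s i : Fin (k + 1)) : ℕ))
    (fun a b hab => s.injective (Fin.ext hab))
  refine Submodule.subset_span ⟨i, w, ?_, h3⟩
  rw [mem_permsOf]
  refine ⟨h1, ?_⟩
  rw [h2]
  ext x
  simp only [Finset.mem_image, Finset.mem_univ, true_and, Finset.mem_range]
  constructor
  · rintro ⟨l, rfl⟩
    exact (s l).isLt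
  · intro hx
    exact ⟨s.symm ⟨x, hx⟩, by simp⟩

theorem lift_F {k : ℕ} (b : ℕ → L) (w : Fin (k + 1) → ℕ) :
    FreeLieAlgebra.lift K b (F K w) = TM K L k (fun i => b (w i)) := by
  unfold F
  rw [map_TM]
  congr 1
  funext i
  rw [FreeLieAlgebra.lift_of_apply]

theorem lift_sum {k : ℕ} (c : (Fin (k + 1) → ℕ) →₀ K) (b : ℕ → L) :
    FreeLieAlgebra.lift K b (∑ w ∈ c.support, c w • F K w) =
      ∑ w ∈ c.support, c w • TM K L k (fun i => b (w i)) := by
  rw [map_sum]
  refine Finset.sum_congr rfl fun w _ => ?_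
  rw [map_smul (FreeLieAlgebra.lift K b) (c w) (F K w), lift_F]

/-- the summands of the expansions -/
noncomputable def X {k : ℕ} (c : (Fin (k + 1) → ℕ) →₀ K) (φ : Fin (k + 1) → ℕ)
    (Y : Fin (k + 1) → L) (r : Fin (k + 1) → Fin (k + 1)) : L :=
  c (φ ∘ r) • TM K L k (fun i => Y (r i))

open Classical in
theorem expand {k : ℕ} (c : (Fin (k + 1) → ℕ) →₀ K) (φ : Fin (k + 1) → ℕ)
    (Y : Fin (k + 1) → L) (Z : Finset (Fin (k + 1))) :
    ∑ w ∈ c.support, c w • TM K L k (fun i =>
      ∑ j ∈ Finset.univ.filter (fun j => j ∉ Z ∧ φ j = w i), Y j) =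
    ∑ r : Fin (k + 1) → Fin (k + 1), if (∀ l, r l ∉ Z) then X c φ Y r else 0 := by
  have h1 : ∀ w : Fin (k + 1) → ℕ, c w • TM K L k (fun i =>
      ∑ j ∈ Finset.univ.filter (fun j => j ∉ Z ∧ φ j = w i), Y j) =
      ∑ r : Fin (k + 1) → Fin (k + 1), if w = φ ∘ r then
        (if (∀ l, r l ∉ Z) then c w • TM K L k (fun i => Y (r i)) else 0) else 0 := by
    intro w
    have h2 := (TM K L k).map_sum_finset (fun _ j => Y j)
      (fun i => Finset.univ.filter (fun j => j ∉ Z ∧ φ j = w i))
    rw [h2, Finset.smul_sum]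
    rw [← Finset.sum_subset (Finset.subset_univ (Fintype.piFinset
      (fun i => Finset.univ.filter (fun j => j ∉ Z ∧ φ j = w i))))]
    · refine Finset.sum_congr rfl fun r hr => ?_
      rw [Fintype.mem_piFinset] at hr
      have h3 : w = φ ∘ r := by
        funext i
        exact (Finset.mem_filter.mp (hr i)).2.2.symm
      have h4 : ∀ l, r l ∉ Z := fun l => (Finset.mem_filter.mp (hr l)).2.1
      rw [if_pos h3, if_pos h4]
    · intro r _ hr
      by_cases h3 : w = φ ∘ r
      · by_cases h4 : ∀ l, r l ∉ Z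
        · exfalso
          apply hr
          rw [Fintype.mem_piFinset]
          intro i
          rw [Finset.mem_filter]
          exact ⟨Finset.mem_univ _, h4 i, by rw [h3]; rfl⟩
        · rw [if_pos h3, if_neg h4]
      · rw [if_neg h3]
  rw [Finset.sum_congr rfl fun w _ => h1 w, Finset.sum_comm]
  refine Finset.sum_congr rfl fun r _ => ?_
  rw [Finset.sum_ite_eq' c.support (φ ∘ r)]
  unfold X
  by_cases hs : φ ∘ r ∈ c.support
  · rw [if_pos hs]
  · rw [if_neg hs, Finsupp.notMem_support_iff.mp hs, zero_smul, ite_self]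

open Classical in
theorem incl_excl {k : ℕ} (Xr : (Fin (k + 1) → Fin (k + 1)) → L) :
    ∑ Z ∈ (Finset.univ : Finset (Fin (k + 1))).powerset, (-1 : ℤ) ^ Z.card •
      (∑ r : Fin (k + 1) → Fin (k + 1), if (∀ l, r l ∉ Z) then Xr r else 0) =
    ∑ s : Equiv.Perm (Fin (k + 1)), Xr s := by
  have h1 : ∑ Z ∈ (Finset.univ : Finset (Fin (k + 1))).powerset, (-1 : ℤ) ^ Z.card •
      (∑ r : Fin (k + 1) → Fin (k + 1), if (∀ l, r l ∉ Z) then Xr r else 0) =
      ∑ r : Fin (k + 1) → Fin (k + 1), if Function.Surjective r then Xr r else 0 := by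
    simp only [Finset.smul_sum]
    rw [Finset.sum_comm]
    refine Finset.sum_congr rfl fun r _ => ?_
    have h2 : ∑ Z ∈ (Finset.univ : Finset (Fin (k + 1))).powerset,
        (-1 : ℤ) ^ Z.card • (if (∀ l, r l ∉ Z) then Xr r else 0) =
        (∑ Z ∈ ((Finset.univ.image r)ᶜ).powerset, (-1 : ℤ) ^ Z.card) • Xr r := by
      rw [Finset.sum_smul, ← Finset.sum_subset (Finset.powerset_mono.mpr
        (Finset.subset_univ ((Finset.univ.image r)ᶜ)))]
      · refine Finset.sum_congr rfl fun Z hZ => ?_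
        rw [Finset.mem_powerset] at hZ
        have : ∀ l, r l ∉ Z := by
          intro l hl
          have := hZ hl
          rw [Finset.mem_compl] at this
          exact this (Finset.mem_image_of_mem r (Finset.mem_univ l))
        rw [if_pos this]
      · intro Z _ hZ
        have : ¬ ∀ l, r l ∉ Z := by
          intro h
          apply hZ
          rw [Finset.mem_powerset]
          intro j hj
          rw [Finset.mem_compl, Finset.mem_image]
          rintro ⟨l, _, rfl⟩
          exact h l hj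
        rw [if_neg this, smul_zero]
    rw [h2, Finset.sum_powerset_neg_one_pow_card]
    by_cases hr : Function.Surjective r
    · have : (Finset.univ.image r)ᶜ = ∅ := by
        rw [Finset.compl_eq_empty_iff, Finset.image_univ_of_surjective hr]
      rw [if_pos this, if_pos hr, one_smul]
    · have : ¬ (Finset.univ.image r)ᶜ = ∅ := by
        rw [Finset.compl_eq_empty_iff]
        intro h
        apply hr
        intro j
        have hj : j ∈ Finset.univ.image r := by rw [h]; exact Finset.mem_univ j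
        obtain ⟨l, _, hl⟩ := Finset.mem_image.mp hj
        exact ⟨l, hl⟩
      rw [if_neg this, if_neg hr, zero_smul]
  rw [h1, ← Finset.sum_filter]
  symm
  refine Finset.sum_bij (fun s _ => ⇑s) ?_ ?_ ?_ ?_
  · intro s _
    rw [Finset.mem_filter]
    exact ⟨Finset.mem_univ _, s.surjective⟩
  · intro s _ s' _ h
    exact DFunLike.coe_injective h
  · intro r hr
    have hs := (Finset.mem_filter.mp hr).2
    exact ⟨Equiv.ofBijective r ⟨Finite.injective_iff_surjective.mpr hs, hs⟩, Finset.mem_univ _,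
      rfl⟩
  · intro s _
    rfl

/-- the multilinear components of an identity are identities -/
theorem comp_identity {k : ℕ} (c : (Fin (k + 1) → ℕ) →₀ K)
    (hf : ∀ a : ℕ → L, FreeLieAlgebra.lift K a (∑ w ∈ c.support, c w • F K w) = 0)
    (φ : Fin (k + 1) → ℕ) (Y : Fin (k + 1) → L) :
    ∑ s : Equiv.Perm (Fin (k + 1)), X c φ Y s = 0 := by
  classical
  rw [← incl_excl (X c φ Y)]
  refine Finset.sum_eq_zero fun Z _ => ?_
  rw [← expand c φ Y Z]
  have := hf (fun i => ∑ j ∈ Finset.univ.filter (fun j => j ∉ Z ∧ φ j = i), Y j)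
  rw [lift_sum] at this
  rw [this, smul_zero]

/-! ### (d) conclusion -/

open Classical in
theorem sum_shift {k : ℕ} (c : (Fin (k + 1) → ℕ) →₀ K) (s : Equiv.Perm (Fin (k + 1)))
    (W : Finset (Fin (k + 1) → ℕ)) (hW : c.support ⊆ W)
    (hs : ∀ (s : Equiv.Perm (Fin (k + 1))) w, w ∈ W → w ∘ s ∈ W) :
    ∑ φ ∈ W, c (φ ∘ s) • F K (φ ∘ s) = ∑ w ∈ c.support, c w • F K w := by
  have h1 : ∑ φ ∈ W, c (φ ∘ s) • F K (φ ∘ s) = ∑ w ∈ W, c w • F K w := by
    refine Finset.sum_nbij' (fun φ => φ ∘ s) (fun w => w ∘ s.symm) ?_ ?_ ?_ ?_ ?_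
    · intro φ hφ
      exact hs s φ hφ
    · intro w hw
      exact hs s.symm w hw
    · intro φ _
      funext i
      simp
    · intro w _
      funext i
      simp
    · intro φ _
      rfl
  rw [h1]
  symm
  refine Finset.sum_subset hW fun w _ hw => ?_
  rw [Finsupp.notMem_support_iff.mp hw, zero_smul]

theorem homog_zero_of [CharZero K] {k : ℕ}
    (hML : ∀ f ∈ ML K (Finset.range (k + 1)),
      (∀ a : ℕ → L, FreeLieAlgebra.lift K a f = 0) → f = 0)
    {f : FreeLieAlgebra K ℕ} (hf : f ∈ H K k) (hid : ∀ a : ℕ → L, FreeLieAlgebra.lift K a f = 0) :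
    f = 0 := by
  classical
  obtain ⟨c, rfl⟩ := exists_coeff hf
  have hg : ∀ φ : Fin (k + 1) → ℕ, ∑ s : Equiv.Perm (Fin (k + 1)),
      c (φ ∘ s) • F K (fun i => ((s i : Fin (k + 1)) : ℕ)) = 0 := by
    intro φ
    apply hML
    · exact Submodule.sum_mem _ fun s _ => Submodule.smul_mem _ _ (F_perm_mem s)
    · intro a
      have := comp_identity c hid φ (fun j => a (j : ℕ))
      rw [map_sum]
      rw [← this]
      refine Finset.sum_congr rfl fun s _ => ?_
      rw [map_smul (FreeLieAlgebra.lift K a) (c (φ ∘ s)), lift_F]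
      rfl
  have hg2 : ∀ φ : Fin (k + 1) → ℕ, ∑ s : Equiv.Perm (Fin (k + 1)),
      c (φ ∘ s) • F K (φ ∘ s) = 0 := by
    intro φ
    have h1 := congrArg (FreeLieAlgebra.lift K (fun j : ℕ =>
      if h : j < k + 1 then FreeLieAlgebra.of K (φ ⟨j, h⟩) else 0)) (hg φ)
    rw [map_sum, map_zero] at h1
    rw [← h1]
    refine Finset.sum_congr rfl fun s _ => ?_
    rw [map_smul (FreeLieAlgebra.lift K _) (c (φ ∘ s)), lift_F]
    congr 1
    unfold F
    congr 1
    funext i
    rw [dif_pos (s i).isLt]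
    rfl
  let W : Finset (Fin (k + 1) → ℕ) := c.support.biUnion fun w =>
    Finset.univ.image fun s : Equiv.Perm (Fin (k + 1)) => w ∘ s
  have hW : c.support ⊆ W := by
    intro w hw
    exact Finset.mem_biUnion.mpr ⟨w, hw, Finset.mem_image.mpr ⟨1, Finset.mem_univ _, rfl⟩⟩
  have hs : ∀ (s : Equiv.Perm (Fin (k + 1))) w, w ∈ W → w ∘ s ∈ W := by
    intro s w hw
    obtain ⟨w0, hw0, hw1⟩ := Finset.mem_biUnion.mp hw
    obtain ⟨s0, _, rfl⟩ := Finset.mem_image.mp hw1
    exact Finset.mem_biUnion.mpr ⟨w0, hw0, Finset.mem_image.mpr ⟨s0 * s, Finset.mem_univ _, rfl⟩⟩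
  have htot : ∑ φ ∈ W, ∑ s : Equiv.Perm (Fin (k + 1)), c (φ ∘ s) • F K (φ ∘ s) = 0 :=
    Finset.sum_eq_zero fun φ _ => hg2 φ
  rw [Finset.sum_comm, Finset.sum_congr rfl fun s _ => sum_shift c s W hW hs,
    Finset.sum_const, Finset.card_univ, Fintype.card_perm, Fintype.card_fin] at htot
  rw [← Nat.cast_smul_eq_nsmul K, smul_eq_zero] at htot
  rcases htot with h | h
  · exact absurd h (by exact_mod_cast Nat.factorial_ne_zero _)
  · exact h

/-- POL -/
theorem t_POL : S_POL := by
  intro K _ _ L _ _ d hML f hf hid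
  obtain ⟨g, hg, rfl⟩ := degLE_components hf
  refine Finset.sum_eq_zero fun e he => ?_
  have hed : e ≤ d := by
    have := Finset.mem_range.mp he
    omega
  rcases Nat.eq_zero_or_pos e with h0 | hpos
  · subst h0
    exact homog_zero (hg 0)
  · obtain ⟨k, rfl⟩ : ∃ k, e = k + 1 := ⟨e - 1, by omega⟩
    refine homog_zero_of (L := L) (fun f' hf' hid' => hML (k + 1) (by omega) hed f' hf' hid')
      (homog_le_H (hg (k + 1))) ?_
    intro a
    refine coeff_zero (K := K) d (fun e => FreeLieAlgebra.lift K a (g e)) ?_ (k + 1) hed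
    intro t
    have h1 := hid (t • a)
    rw [map_sum] at h1
    rw [← h1]
    exact Finset.sum_congr rfl fun e _ => (lift_smul_homog t a (hg e)).symm

end Pool.Agent.H177.LIE
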